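import Pool.Agent.helper90.ZD.SpecB
import Pool.Agent.helper63.ED.PW

/-!
# BSQ: the fourth moment
-/

set_option autoImplicit false

open Complex MeasureTheory

namespace Pool.Agent.ZD

open Pool.Agent.helper84.DM Pool.Agent.helper78.ED Pool.Agent.DH

/-- The number of the representations `k = m n`, `m, n ∈ A`. -/
noncomputable def BSQ_r (A : Finset ℕ) (k : ℕ) : ℝ :=
  (((A ×ˢ A).filter (fun p => p.1 * p.2 = k)).card : ℝ)

theorem BSQ_le (A : Finset ℕ) (k : ℕ) (hk : k ≠ 0) : BSQ_r A k ≤ d k := by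
  unfold BSQ_r d
  have : ((A ×ˢ A).filter (fun p => p.1 * p.2 = k)).card ≤ k.divisors.card := by
    refine Finset.card_le_card_of_injOn (fun p => p.1) ?_ ?_
    · intro p hp
      have h2 := (Finset.mem_filter.1 hp).2
      rw [Finset.mem_coe, Nat.mem_divisors]
      exact ⟨⟨p.2, h2.symm⟩, hk⟩
    · intro p hp q hq hpq
      have h2 := (Finset.mem_filter.1 hp).2
      have h3 := (Finset.mem_filter.1 hq).2
      have hpq' : p.1 = q.1 := hpq
      have hp1 : 0 < p.1 := by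
        rcases Nat.eq_zero_or_pos p.1 with h | h
        · rw [h, zero_mul] at h2
          exact absurd h2.symm hk
        · exact h
      have h4 : p.1 * p.2 = p.1 * q.2 := by rw [h2, hpq', h3]
      exact Prod.ext hpq' (Nat.eq_of_mul_eq_mul_left hp1 h4)
  exact_mod_cast this

theorem BSQ_sq (A K : Finset ℕ) (h : ∀ m ∈ A, ∀ n ∈ A, m * n ∈ K) (u : ℝ) :
    PL A u ^ 2 = ∑ k ∈ K, ((BSQ_r A k : ℝ) : ℂ) * (k : ℂ) ^ (-((u : ℂ) * I)) := by
  have h1 := PW_mul A A K (fun _ => 1) (fun _ => 1) (fun p hp => by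
    rw [Finset.mem_product] at hp
    exact h p.1 hp.1 p.2 hp.2) ((u : ℂ) * I)
  simp only [one_mul, Finset.sum_const, nsmul_eq_mul, mul_one] at h1
  rw [sq, PL, h1]
  refine Finset.sum_congr rfl fun k _ => ?_
  rw [BSQ_r, Complex.ofReal_natCast]

theorem BSQ (h : BPS_stmt) : BSQ_stmt := by
  intro W A K D h0 hAK hD
  have h1 := h W K K (BSQ_r A) D h0 (Finset.Subset.refl K) (fun k hk => ⟨by
    unfold BSQ_r
    positivity, (BSQ_le A k (fun hk0 => h0 (hk0 ▸ hk))).trans (hD k hk)⟩)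
  refine le_trans (le_of_eq ?_) h1
  refine Finset.sum_congr rfl fun t _ => Finset.sum_congr rfl fun t' _ => ?_
  rw [← BSQ_sq A K hAK, norm_pow, ← pow_mul]

end Pool.Agent.ZD
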