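import Pool.Agent.helper86.ZD.SpecC

/-!
# CMB: class one, the range of the mean value of the square
-/

set_option autoImplicit false

open Complex MeasureTheory

namespace Pool.Agent.ZD

open Pool.Agent.helper84.DM Pool.Agent.helper78.ED Pool.Agent.DH

/-- The real variable computation. -/
theorem CMB_alg {w N σ L K R : ℝ} (hN : 0 < N) (hL : 0 < L)
    (h : w * (N ^ σ / L) ^ (2 * 2) ≤ K * R) :
    w ≤ K * L ^ 4 * (R * ((N ^ 2) ^ (-(2 * σ)))) := by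
  have h1 : (N ^ σ / L) ^ (2 * 2) = N ^ (4 * σ) / L ^ 4 := by
    rw [div_pow, ← Real.rpow_natCast, ← Real.rpow_mul hN.le, ← Real.rpow_natCast]
    norm_num
    ring_nf
  have h2 : (N ^ 2) ^ (-(2 * σ)) = (N ^ (4 * σ))⁻¹ := by
    rw [← Real.rpow_natCast, ← Real.rpow_mul hN.le, ← Real.rpow_neg hN.le]
    congr 1
    push_cast
    ring
  rw [h1] at h
  rw [h2]
  have h3 : 0 < N ^ (4 * σ) := Real.rpow_pos_of_pos hN _
  have h4 : w = w * (N ^ (4 * σ) / L ^ 4) * (L ^ 4 * (N ^ (4 * σ))⁻¹) := by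
    field_simp
  rw [h4]
  calc w * (N ^ (4 * σ) / L ^ 4) * (L ^ 4 * (N ^ (4 * σ))⁻¹)
      ≤ K * R * (L ^ 4 * (N ^ (4 * σ))⁻¹) := mul_le_mul_of_nonneg_right h (by positivity)
    _ = _ := by ring

theorem CMB (h1 : MVK_stmt) (h2 : CMQ_stmt) : CMB_stmt := by
  intro ε δ hε hδ hδ4
  refine ⟨min 1 (ε / 16), by positivity, min_le_left _ _, fun C₁ hC₁ => ?_⟩
  obtain ⟨CM, hCM, hM⟩ := h1 (ε / 4) 2 (by positivity) (by norm_num)
  refine ⟨CM * C₁ ^ 4 * (4 * C₁) ^ 4 / (ε / 16) ^ 4 * 2, 2, by positivity, ?_⟩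
  intro T hT σ hσ1 hσ2 N hN1 hN2 hor a ha W hW hV
  have hT1 : 1 ≤ T := by linarith
  have hT0 : 0 < T := by linarith
  have hlog : 0 < Real.log T := Real.log_pos (by linarith)
  have hNr : (1 : ℝ) ≤ N := (Real.one_le_rpow hT1 (by norm_num)).trans hN1
  have hNn : 1 ≤ N := by exact_mod_cast hNr
  have hNT : (N : ℝ) ≤ T := by
    refine hN2.trans ?_
    calc T ^ (1 / 2 + δ) ≤ T ^ (1 : ℝ) := Real.rpow_le_rpow_of_exponent_le hT1 (by linarith)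
      _ = T := Real.rpow_one T
  set κ : ℝ := min 1 (ε / 16) with hκ
  set L : ℝ := 4 * C₁ * Real.log T with hL
  have hL0 : 0 < L := by positivity
  have key := hM T hT1 W hW N a (C₁ * T ^ κ) ((N : ℝ) ^ σ / L) hNn hNT (by positivity) ha hV
  have hM1 : T ^ (13 / 17 : ℝ) ≤ (N : ℝ) ^ 2 := by
    calc T ^ (13 / 17 : ℝ) = (T ^ (13 / 34 : ℝ)) ^ 2 := by
          rw [← Real.rpow_natCast, ← Real.rpow_mul hT0.le]
          norm_num
      _ ≤ (N : ℝ) ^ 2 := pow_le_pow_left₀ (by positivity) hN1 2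
  have hM2 : (N : ℝ) ^ 2 ≤ T ^ (1 + 2 * δ) := by
    calc (N : ℝ) ^ 2 ≤ (T ^ (1 / 2 + δ)) ^ 2 := pow_le_pow_left₀ (by positivity) hN2 2
      _ = T ^ (1 + 2 * δ) := by
          rw [← Real.rpow_natCast, ← Real.rpow_mul hT0.le]
          congr 1
          push_cast
          ring
  have hM3 : σ ≤ 9 / 13 ∨ T ≤ (N : ℝ) ^ 2 := by
    refine hor.imp_right fun h => ?_
    calc T = (T ^ (1 / 2 : ℝ)) ^ 2 := by
          rw [← Real.rpow_natCast, ← Real.rpow_mul hT0.le]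
          norm_num
      _ ≤ (N : ℝ) ^ 2 := pow_le_pow_left₀ (by positivity) h 2
  have hq := h2 T ((N : ℝ) ^ 2) σ δ hT1 hδ.le hσ1 hσ2 hM1 hM2 hM3
  have h3 := CMB_alg (by linarith) hL0 key
  have h4 : (T ^ κ) ^ 4 ≤ T ^ (ε / 4) := by
    rw [← Real.rpow_natCast, ← Real.rpow_mul hT0.le]
    refine Real.rpow_le_rpow_of_exponent_le hT1 ?_
    have : κ ≤ ε / 16 := min_le_right _ _
    push_cast
    linarith
  have h5 : (Real.log T) ^ 4 ≤ T ^ (ε / 4) / (ε / 16) ^ 4 := by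
    have h6 : Real.log T ≤ T ^ (ε / 16) / (ε / 16) := Real.log_le_rpow_div hT0.le (by positivity)
    calc (Real.log T) ^ 4 ≤ (T ^ (ε / 16) / (ε / 16)) ^ 4 := pow_le_pow_left₀ hlog.le h6 4
      _ = T ^ (ε / 4) / (ε / 16) ^ 4 := by
          rw [div_pow, ← Real.rpow_natCast (T ^ (ε / 16)), ← Real.rpow_mul hT0.le]
          congr 2
          push_cast
          ring
  have h7 : T ^ (ε / 4) * T ^ (ε / 4) * T ^ (ε / 4) ≤ T ^ ε := by
    rw [← Real.rpow_add hT0, ← Real.rpow_add hT0]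
    exact Real.rpow_le_rpow_of_exponent_le hT1 (by linarith)
  have h8 : T ^ (39 / 17 * (1 - σ) + ε + 4 * δ) =
      T ^ ε * T ^ (39 / 17 * (1 - σ) + 4 * δ) := by
    rw [← Real.rpow_add hT0]
    ring_nf
  calc (W.card : ℝ) ≤ CM * (C₁ * T ^ κ) ^ (2 * 2) * T ^ (ε / 4) * L ^ 4 *
        ((T + (N : ℝ) ^ 2) * (N : ℝ) ^ 2 * (((N : ℝ) ^ 2) ^ (-(2 * σ)))) := h3
    _ = CM * C₁ ^ 4 * (4 * C₁) ^ 4 * ((T ^ κ) ^ 4 * T ^ (ε / 4) * (Real.log T) ^ 4) *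
        ((T + (N : ℝ) ^ 2) * (N : ℝ) ^ 2 * (((N : ℝ) ^ 2) ^ (-(2 * σ)))) := by
        rw [hL]
        ring
    _ ≤ CM * C₁ ^ 4 * (4 * C₁) ^ 4 *
        (T ^ (ε / 4) * T ^ (ε / 4) * (T ^ (ε / 4) / (ε / 16) ^ 4)) *
        (2 * T ^ (39 / 17 * (1 - σ) + 4 * δ)) := by
        gcongr
    _ = CM * C₁ ^ 4 * (4 * C₁) ^ 4 / (ε / 16) ^ 4 * 2 *
        (T ^ (ε / 4) * T ^ (ε / 4) * T ^ (ε / 4) * T ^ (39 / 17 * (1 - σ) + 4 * δ)) := by
        ring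
    _ ≤ CM * C₁ ^ 4 * (4 * C₁) ^ 4 / (ε / 16) ^ 4 * 2 *
        (T ^ ε * T ^ (39 / 17 * (1 - σ) + 4 * δ)) := by
        gcongr
    _ = _ := by rw [h8]

end Pool.Agent.ZD
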