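import Pool.Agent.helper84.ZD.SpecA

/-!
# QZ0: the second moment of `rho` on `[-5, 5]`
-/

set_option autoImplicit false

open Complex MeasureTheory

namespace Pool.Agent.ZD

open Pool.Agent.helper84.DM Pool.Agent.helper78.ED Pool.Agent.DH

/-- The majorant of the values of the Gaussian. -/
noncomputable def QZ0_g (k : ℤ) : ℝ :=
  Real.exp (-((k : ℝ) ^ 2 / 4)) + Real.exp (-(((k : ℝ) + 1) ^ 2 / 4))

theorem QZ0_s1 : Summable (fun k : ℤ => Real.exp (-((k : ℝ) ^ 2 / 4))) := by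
  have hr : Summable (fun n : ℕ => Real.exp (-1 / 4) ^ n) :=
    summable_geometric_of_lt_one (Real.exp_pos _).le (Real.exp_lt_one_iff.2 (by norm_num))
  have hb : ∀ n : ℕ, Real.exp (-((n : ℝ) ^ 2 / 4)) ≤ Real.exp (-1 / 4) ^ n := by
    intro n
    rw [← Real.exp_nat_mul]
    refine Real.exp_le_exp.2 ?_
    have : (n : ℝ) ≤ (n : ℝ) ^ 2 := by
      exact_mod_cast Nat.le_self_pow two_ne_zero n
    linarith
  refine Summable.of_nat_of_neg ?_ ?_
  · refine Summable.of_nonneg_of_le (fun n => (Real.exp_pos _).le) (fun n => ?_) hr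
    simpa using hb n
  · refine Summable.of_nonneg_of_le (fun n => (Real.exp_pos _).le) (fun n => ?_) hr
    simpa using hb n

theorem QZ0_sg : Summable QZ0_g := by
  refine QZ0_s1.add ?_
  have h := (Equiv.addRight (1 : ℤ)).summable_iff.2 QZ0_s1
  refine h.congr fun k => ?_
  simp

theorem QZ0_row (W : Finset ℝ) (hW : ∀ t ∈ W, ∀ t' ∈ W, t ≠ t' → 1 ≤ |t - t'|) (t : ℝ) :
    ∑ t' ∈ W, Real.exp (-((t - t') ^ 2 / 4)) ≤ ∑' k : ℤ, QZ0_g k := by
  classical
  have hpos : ∀ k, 0 ≤ QZ0_g k := fun k => by unfold QZ0_g; positivity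
  have h1 : ∀ t' ∈ W, Real.exp (-((t - t') ^ 2 / 4)) ≤ QZ0_g ⌊t' - t⌋ := by
    intro t' _
    have ha := Int.floor_le (t' - t)
    have hb := Int.lt_floor_add_one (t' - t)
    unfold QZ0_g
    rcases le_or_gt 0 ⌊t' - t⌋ with h | h
    · have h0 : (0 : ℝ) ≤ (⌊t' - t⌋ : ℝ) := by exact_mod_cast h
      have h2 : Real.exp (-((t - t') ^ 2 / 4)) ≤ Real.exp (-((⌊t' - t⌋ : ℝ) ^ 2 / 4)) := by
        refine Real.exp_le_exp.2 ?_
        nlinarith
      have h3 := Real.exp_pos (-(((⌊t' - t⌋ : ℝ) + 1) ^ 2 / 4))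
      linarith
    · have h0 : (⌊t' - t⌋ : ℝ) + 1 ≤ 0 := by
        have : ⌊t' - t⌋ + 1 ≤ 0 := h
        exact_mod_cast this
      have h2 : Real.exp (-((t - t') ^ 2 / 4)) ≤ Real.exp (-(((⌊t' - t⌋ : ℝ) + 1) ^ 2 / 4)) := by
        refine Real.exp_le_exp.2 ?_
        nlinarith
      have h3 := Real.exp_pos (-((⌊t' - t⌋ : ℝ) ^ 2 / 4))
      linarith
  have hinj : Set.InjOn (fun t' : ℝ => ⌊t' - t⌋) (W : Set ℝ) := by
    intro x hx y hy hxy
    by_contra hne
    have h2 := hW x hx y hy hne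
    have h3 : |(x - t) - (y - t)| < 1 := Int.abs_sub_lt_one_of_floor_eq_floor hxy
    rw [sub_sub_sub_cancel_right] at h3
    linarith
  calc ∑ t' ∈ W, Real.exp (-((t - t') ^ 2 / 4)) ≤ ∑ t' ∈ W, QZ0_g ⌊t' - t⌋ := Finset.sum_le_sum h1
    _ = ∑ k ∈ W.image (fun t' : ℝ => ⌊t' - t⌋), QZ0_g k := by
        rw [Finset.sum_image hinj]
    _ ≤ ∑' k : ℤ, QZ0_g k := QZ0_sg.sum_le_tsum _ (fun k _ => hpos k)

theorem QZ0_sq (W : Finset ℝ) (x : ℝ) : ((‖rho W x‖ ^ 2 * Real.exp (-x ^ 2) : ℝ) : ℂ) =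
    ∑ t ∈ W, ∑ t' ∈ W, cexp (-1 * (x : ℂ) ^ 2 + (((t - t' : ℝ) : ℂ) * I) * x + 0) := by
  have h1 : ((‖rho W x‖ ^ 2 : ℝ) : ℂ) = rho W x * (starRingEnd ℂ) (rho W x) := by
    rw [Complex.mul_conj']
    push_cast
    rfl
  rw [Complex.ofReal_mul, h1, rho, map_sum, Finset.sum_mul_sum, Finset.sum_mul]
  refine Finset.sum_congr rfl fun t _ => ?_
  rw [Finset.sum_mul]
  refine Finset.sum_congr rfl fun t' _ => ?_
  rw [← Complex.exp_conj, Complex.ofReal_exp, ← Complex.exp_add, ← Complex.exp_add]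
  congr 1
  simp only [map_mul, Complex.conj_ofReal, Complex.conj_I]
  push_cast
  ring

theorem QZ0 : QZ0_stmt := by
  set K : ℝ := ‖((Real.pi : ℂ) / -(-1)) ^ (1 / 2 : ℂ)‖ with hK
  set G : ℝ := ∑' k : ℤ, QZ0_g k with hG
  have hK0 : 0 ≤ K := norm_nonneg _
  have hG0 : 0 ≤ G := tsum_nonneg fun k => by unfold QZ0_g; positivity
  refine ⟨Real.exp 25 * (K * G) + 1, by positivity, fun W hW => ?_⟩
  have hint : ∀ t t' : ℝ, Integrable (fun x : ℝ =>
      cexp (-1 * (x : ℂ) ^ 2 + (((t - t' : ℝ) : ℂ) * I) * x + 0)) := by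
    intro t t'
    exact integrable_cexp_quadratic' (by simp) _ _
  have hintC : Integrable (fun x : ℝ => ((‖rho W x‖ ^ 2 * Real.exp (-x ^ 2) : ℝ) : ℂ)) := by
    simp_rw [QZ0_sq]
    exact integrable_finsetSum _ fun t _ => integrable_finsetSum _ fun t' _ => hint t t'
  have hintR : Integrable (fun x : ℝ => ‖rho W x‖ ^ 2 * Real.exp (-x ^ 2)) := by
    exact hintC.re.congr (Filter.Eventually.of_forall fun x => rfl)
  have hval : ((∫ x : ℝ, ‖rho W x‖ ^ 2 * Real.exp (-x ^ 2) : ℝ) : ℂ) =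
      ∑ t ∈ W, ∑ t' ∈ W, ((Real.pi : ℂ) / -(-1)) ^ (1 / 2 : ℂ) *
        cexp (0 - ((((t - t' : ℝ) : ℂ) * I)) ^ 2 / (4 * (-1))) := by
    rw [← integral_complex_ofReal]
    simp_rw [QZ0_sq]
    rw [integral_finsetSum _ fun t _ => integrable_finsetSum _ fun t' _ => hint t t']
    refine Finset.sum_congr rfl fun t _ => ?_
    rw [integral_finsetSum _ fun t' _ => hint t t']
    refine Finset.sum_congr rfl fun t' _ => ?_
    exact integral_cexp_quadratic (by simp) _ _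
  have hnn : 0 ≤ ∫ x : ℝ, ‖rho W x‖ ^ 2 * Real.exp (-x ^ 2) :=
    integral_nonneg fun x => by positivity
  have hbd : ∫ x : ℝ, ‖rho W x‖ ^ 2 * Real.exp (-x ^ 2) ≤ K * G * (W.card : ℝ) := by
    calc ∫ x : ℝ, ‖rho W x‖ ^ 2 * Real.exp (-x ^ 2)
        = ‖((∫ x : ℝ, ‖rho W x‖ ^ 2 * Real.exp (-x ^ 2) : ℝ) : ℂ)‖ := by
          rw [Complex.norm_real, Real.norm_of_nonneg hnn]
      _ ≤ ∑ t ∈ W, ∑ t' ∈ W, K * Real.exp (-((t - t') ^ 2 / 4)) := by
          rw [hval]
          refine (norm_sum_le _ _).trans (Finset.sum_le_sum fun t _ => ?_)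
          refine (norm_sum_le _ _).trans (Finset.sum_le_sum fun t' _ => ?_)
          rw [norm_mul, Complex.norm_exp]
          refine le_of_eq ?_
          congr 2
          have : (0 : ℂ) - ((((t - t' : ℝ) : ℂ) * I)) ^ 2 / (4 * (-1)) =
              ((-((t - t') ^ 2 / 4) : ℝ) : ℂ) := by
            rw [mul_pow, I_sq]
            push_cast
            ring
          rw [this, Complex.ofReal_re]
      _ ≤ ∑ t ∈ W, K * G := by
          refine Finset.sum_le_sum fun t _ => ?_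
          rw [← Finset.mul_sum]
          exact mul_le_mul_of_nonneg_left (QZ0_row W hW t) hK0
      _ = K * G * (W.card : ℝ) := by
          rw [Finset.sum_const, nsmul_eq_mul]
          ring
  have hcont : Continuous (rho W) := by
    unfold rho
    fun_prop
  calc ∫ x in (-5 : ℝ)..5, ‖rho W x‖ ^ 2
      ≤ ∫ x in (-5 : ℝ)..5, Real.exp 25 * (‖rho W x‖ ^ 2 * Real.exp (-x ^ 2)) := by
        refine intervalIntegral.integral_mono_on (by norm_num) ?_ ?_ ?_
        · exact (Continuous.intervalIntegrable (by fun_prop) _ _)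
        · exact (Continuous.intervalIntegrable (by fun_prop) _ _)
        · intro x hx
          have h1 : Real.exp 25 * (‖rho W x‖ ^ 2 * Real.exp (-x ^ 2)) =
              ‖rho W x‖ ^ 2 * Real.exp (25 - x ^ 2) := by
            rw [sub_eq_add_neg, Real.exp_add]
            ring
          rw [h1]
          have h2 : 1 ≤ Real.exp (25 - x ^ 2) := by
            refine Real.one_le_exp ?_
            nlinarith [hx.1, hx.2]
          nlinarith [sq_nonneg ‖rho W x‖]
    _ = Real.exp 25 * ∫ x in (-5 : ℝ)..5, ‖rho W x‖ ^ 2 * Real.exp (-x ^ 2) :=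
        intervalIntegral.integral_const_mul _ _
    _ ≤ Real.exp 25 * ∫ x : ℝ, ‖rho W x‖ ^ 2 * Real.exp (-x ^ 2) := by
        refine mul_le_mul_of_nonneg_left ?_ (Real.exp_pos _).le
        rw [intervalIntegral.integral_of_le (by norm_num)]
        exact setIntegral_le_integral hintR (Filter.Eventually.of_forall fun x => by positivity)
    _ ≤ Real.exp 25 * (K * G * (W.card : ℝ)) :=
        mul_le_mul_of_nonneg_left hbd (Real.exp_pos _).le
    _ ≤ (Real.exp 25 * (K * G) + 1) * (W.card : ℝ) := by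
        have : (0 : ℝ) ≤ W.card := Nat.cast_nonneg _
        nlinarith

end Pool.Agent.ZD
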